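import Pool.Agent.Helper63.LP.Spec

/-!
Correlation of a symmetric convex density with a convex function vanishing at the center,
compared with the radial weight.
-/

set_option autoImplicit false

noncomputable section

open MeasureTheory Set
open scoped ENNReal

namespace Pool.Agent.Helper54.LP.COR

open Pool.Agent.Helper77.LM Helper63.LP

lemma continuous_sg (m : ℕ) : Continuous (sg m) := by
  unfold sg
  exact continuous_const.sub (continuous_const.mul
    (Continuous.finset_inf'_apply _ fun i _ => continuous_apply i))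

lemma inf_perm (m : ℕ) (σ : Equiv.Perm (Fin (m + 1))) (l : Fin (m + 1) → ℝ) :
    Finset.univ.inf' ⟨0, Finset.mem_univ _⟩ (fun i => l (σ i))
      = Finset.univ.inf' ⟨0, Finset.mem_univ _⟩ l := by
  apply le_antisymm
  · refine Finset.le_inf' _ _ fun i _ => ?_
    have := Finset.inf'_le (fun i => l (σ i)) (Finset.mem_univ (σ.symm i))
    simpa using this
  · refine Finset.le_inf' _ _ fun i _ => ?_
    exact Finset.inf'_le l (Finset.mem_univ (σ i))

lemma sg_perm (m : ℕ) (σ : Equiv.Perm (Fin (m + 1))) (l : Fin (m + 1) → ℝ) :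
    sg m (fun i => l (σ i)) = sg m l := by
  unfold sg
  rw [inf_perm]

lemma sg_bdd (m : ℕ) {l : Fin (m + 1) → ℝ} (hl : l ∈ stdSimplex ℝ (Fin (m + 1))) :
    0 ≤ sg m l ∧ sg m l ≤ 1 := by
  have h0 : 0 ≤ Finset.univ.inf' ⟨0, Finset.mem_univ _⟩ l :=
    Finset.le_inf' _ _ fun i _ => hl.1 i
  have h1 : ((m : ℝ) + 1) * Finset.univ.inf' ⟨0, Finset.mem_univ _⟩ l ≤ 1 := by
    have h2 : ∑ _i : Fin (m + 1), Finset.univ.inf' ⟨0, Finset.mem_univ _⟩ l ≤ ∑ i, l i :=
      Finset.sum_le_sum fun i _ => Finset.inf'_le l (Finset.mem_univ i)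
    rw [hl.2] at h2
    simpa using h2
  unfold sg
  constructor
  · linarith
  · have : 0 ≤ ((m : ℝ) + 1) * Finset.univ.inf' ⟨0, Finset.mem_univ _⟩ l := by positivity
    linarith

lemma bd_sg (m : ℕ) : Bd m (sg m) := by
  refine ⟨(continuous_sg m).measurable, fun σ l => sg_perm m σ l, 1, fun l hl => ?_⟩
  obtain ⟨h0, h1⟩ := sg_bdd m hl
  rw [abs_of_nonneg h0]
  exact h1

lemma Ts_sg {n : ℕ} {l : Fin (n + 1) → ℝ} (hl : l ∈ stdSimplex ℝ (Fin (n + 1))) {s : ℝ}
    (h0 : 0 ≤ s) : Ts s (sg (n + 1)) l = s := by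
  have hinf : Finset.univ.inf' ⟨0, Finset.mem_univ _⟩ (bary (s • l)) = (1 - s) / (n + 2) := by
    apply le_antisymm
    · have := Finset.inf'_le (bary (s • l)) (Finset.mem_univ (0 : Fin (n + 2)))
      rw [bary_zero, tt_smul_std hl] at this
      exact this
    · refine Finset.le_inf' _ _ fun i _ => ?_
      refine Fin.cases ?_ (fun j => ?_) i
      · rw [bary_zero, tt_smul_std hl]
      · rw [bary_succ, tt_smul_std hl, Pi.smul_apply, smul_eq_mul]
        have := mul_nonneg h0 (hl.1 j)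
        linarith
  unfold Ts sg
  rw [hinf]
  push_cast
  field_simp
  ring

theorem main : S_COR := by
  intro n f b0 hf hf0 hb0
  have hVn := V_pos n
  have hVn1 := V_pos (n + 1)
  -- symmetrize
  have hb : Cls (n + 1) (sy b0) := sy_cls hb0.meas hb0.bdd hb0.conv
  set b : (Fin (n + 2) → ℝ) → ℝ := sy b0 with hbd
  have hbc : b (Pool.Agent.Helper77.LM.ctr (n + 1)) = 0 := by
    have : ∀ σ : Equiv.Perm (Fin (n + 1 + 1)), pf σ b0 (Pool.Agent.Helper77.LM.ctr (n + 1)) = 0 :=
      fun σ => hb0.ctr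
    simp [hbd, sy, this]
  have hA1 : A (n + 1) b = A (n + 1) b0 := by
    have := A_mul_sy (Bd.const (n := n + 1) 1) hb0.meas hb0.bdd
    simpa using this
  have hA2 : A (n + 1) (fun l => f l * b l) = A (n + 1) (fun l => f l * b0 l) :=
    A_mul_sy hf.toBd hb0.meas hb0.bdd
  rw [← hA1, ← hA2]
  set c0 : ℝ := (n + 2) / (n + 1) with hc0
  have hc0p : 0 < c0 := by positivity
  have hfb : Bd (n + 1) (fun l => f l * b l) := hf.toBd.mul hb.toBd
  have hfs : Bd (n + 1) (fun l => f l * sg (n + 1) l) := hf.toBd.mul (bd_sg (n + 1))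
  -- the ray functions
  have hray0 : ∀ l, Ts 0 b l = 0 := by
    intro l
    simp only [Ts, zero_smul]
    rw [bary_zero_eq, hbc]
  have hb00 : A n (Ts 0 b) = 0 := by
    simp only [A, hray0, integral_zero]
  have hbn : ∀ s ∈ Icc (0 : ℝ) 1, 0 ≤ A n (Ts s b) := by
    intro s hs
    rw [← hb00]
    exact hb.A_mono (left_mem_Icc.2 zero_le_one) hs hs.1
  have hdiv : MonotoneOn (fun s => A n (Ts s b) / s) (Icc 0 1) := by
    intro s hs t ht hst
    rcases hs.1.eq_or_lt with h0 | h0
    · simp only [← h0, div_zero]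
      exact div_nonneg (hbn t ht) ht.1
    · have ht0 : 0 < t := h0.trans_le hst
      simp only
      rw [div_le_div_iff₀ h0 ht0]
      have key : A n (Ts s b) ≤ A n (fun l => (s / t) * Ts t b l) := by
        refine A_mono (hb.toBd.ts hs.1 hs.2) ((Bd.const _).mul (hb.toBd.ts ht.1 ht.2)) ?_
        intro l hl
        have h1 := hb.conv.2 (bary_std hl ht.1 ht.2) (bary_mem_std (x := (0 : Fin (n + 1) → ℝ))
          (by simpa using smul_std_mem hl le_rfl zero_le_one))
          (show (0 : ℝ) ≤ s / t from div_nonneg hs.1 ht0.le)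
          (show (0 : ℝ) ≤ 1 - s / t by rw [sub_nonneg, div_le_one ht0]; exact hst) (by ring)
        rw [← bary_add_smul _ _ (by ring)] at h1
        have e : (s / t) • t • l + (1 - s / t) • (0 : Fin (n + 1) → ℝ) = s • l := by
          rw [smul_zero, add_zero, smul_smul, div_mul_cancel₀ _ ht0.ne']
        rw [e, bary_zero_eq, hbc] at h1
        simp only [smul_eq_mul, mul_zero, add_zero] at h1
        exact h1
      rw [A_mul_const] at key
      have := mul_le_mul_of_nonneg_right key ht0.le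
      calc A n (Ts s b) * t ≤ s / t * A n (Ts t b) * t := this
        _ = A n (Ts t b) * s := by field_simp
  -- Chebyshev
  have hch := cheb (n + 1) (a := fun s => A n (Ts s f)) (b := fun s => A n (Ts s b) / s)
    (measurable_A_Ts hf.meas) ((measurable_A_Ts hb.meas).div measurable_id) hf.A_mono hdiv
  obtain ⟨C, hC⟩ := hb.toBd.A_bound
  obtain ⟨C1, hC1⟩ := hf.toBd.A_bound
  have e1 : ∫ s in Ioc (0 : ℝ) 1, s ^ (n + 1) * (A n (Ts s b) / s)
      = ∫ s in Ioc (0 : ℝ) 1, s ^ n * A n (Ts s b) := by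
    refine setIntegral_congr_fun measurableSet_Ioc fun s hs => ?_
    have : s ≠ 0 := hs.1.ne'
    rw [pow_succ]
    field_simp
  have e2 : ∫ s in Ioc (0 : ℝ) 1, s ^ (n + 1) * (A n (Ts s f) * (A n (Ts s b) / s))
      = ∫ s in Ioc (0 : ℝ) 1, s ^ n * (A n (Ts s f) * A n (Ts s b)) := by
    refine setIntegral_congr_fun measurableSet_Ioc fun s hs => ?_
    have : s ≠ 0 := hs.1.ne'
    rw [pow_succ]
    field_simp
  rw [e1, e2] at hch
  -- the radial weight
  have hS : A (n + 1) (fun l => f l * sg (n + 1) l)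
      = c0 * ∫ s in Ioc (0 : ℝ) 1, s ^ (n + 1) * A n (Ts s f) := by
    rw [A_step hfs, ← hc0]
    congr 1
    refine setIntegral_congr_fun measurableSet_Ioc fun s hs => ?_
    have h1 : A n (Ts s fun l => f l * sg (n + 1) l) = A n (fun l => s * Ts s f l) := by
      refine A_congr fun l hl => ?_
      have := Ts_sg hl hs.1.le
      simp only [Ts] at this ⊢
      rw [this]; ring
    simp only [h1, A_mul_const]
    ring
  -- the product
  have hP : ∫ s in Ioc (0 : ℝ) 1, s ^ n * (A n (Ts s f) * A n (Ts s b))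
      ≤ V n * ∫ s in Ioc (0 : ℝ) 1, s ^ n * A n (Ts s fun l => f l * b l) := by
    rw [← integral_const_mul]
    obtain ⟨C', hC'⟩ := hfb.A_bound
    refine setIntegral_mono_on ?_
      ((integrable_unit_mul (measurable_A_Ts hfb.meas) n hC').const_mul _) measurableSet_Ioc ?_
    · refine integrable_unit_mul ((measurable_A_Ts hf.meas).mul (measurable_A_Ts hb.meas)) n
        (C := C1 * C) ?_
      intro s hs
      simp only [Pi.mul_apply]
      rw [abs_mul]
      exact mul_le_mul (hC1 s hs) (hC s hs) (abs_nonneg _) ((abs_nonneg _).trans (hC1 s hs))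
    · intro s hs
      have := corr n (Ts s f) (Ts s b) (hf.ts hs.1.le hs.2) (hb.ts hs.1.le hs.2)
      have h3 := mul_le_mul_of_nonneg_left this (pow_nonneg hs.1.le n)
      have e : (fun l => Ts s f l * Ts s b l) = Ts s (fun l => f l * b l) := rfl
      rw [e] at h3
      calc s ^ n * (A n (Ts s f) * A n (Ts s b)) ≤ _ := h3
        _ = V n * (s ^ n * A n (Ts s fun l => f l * b l)) := by ring
  rw [hS, A_step hb.toBd, A_step hfb, V_step, ← hc0]
  set X := ∫ s in Ioc (0 : ℝ) 1, s ^ (n + 1) * A n (Ts s f)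
  set Y := ∫ s in Ioc (0 : ℝ) 1, s ^ n * A n (Ts s b)
  set Z := ∫ s in Ioc (0 : ℝ) 1, s ^ n * (A n (Ts s f) * A n (Ts s b))
  set W := ∫ s in Ioc (0 : ℝ) 1, s ^ n * A n (Ts s fun l => f l * b l)
  have hn2 : (0 : ℝ) < n + 2 := by positivity
  have hn1 : (0 : ℝ) < n + 1 := by positivity
  have h1 : X * Y ≤ 1 / (n + 2) * Z := by
    have : (((n + 1 : ℕ) : ℝ) + 1) = n + 2 := by push_cast; ring
    rw [this] at hch
    exact hch
  have h2 : X * Y ≤ 1 / (n + 2) * (V n * W) :=
    h1.trans (mul_le_mul_of_nonneg_left hP (by positivity))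
  calc c0 * (c0 * X) * (c0 * Y) = c0 * c0 * c0 * (X * Y) := by ring
    _ ≤ c0 * c0 * c0 * (1 / (n + 2) * (V n * W)) := mul_le_mul_of_nonneg_left h2 (by positivity)
    _ = c0 * (V n / (n + 1)) * (c0 * W) := by
      rw [hc0]; field_simp

end Pool.Agent.Helper54.LP.COR

end
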